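import Mathlib
import Pool.Agent.Lib.helper21.Tens

set_option autoImplicit false

namespace Pool.Agent.Results.MP_5ff22d_lc.Counter

open Filter Pool.Agent.Lib.helper21.Tens

def v {ι : Type} (W : Ultrafilter ι) (x : Germ (W : Filter ι) ℕ) : Set (Set ℕ) :=
  {S | x.LiftPred (· ∈ S)}

def Up : Set (Set ℕ) := {A | {n | ∃ a ∈ A, a ∣ n} = A}

def Sim (F G : Set (Set ℕ)) : Prop := F ∩ Up ⊆ G ∧ G ∩ Up ⊆ F

theorem result : ∃ (ι : Type) (W : Ultrafilter ι) (x y z : Germ (W : Filter ι) ℕ),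
    v W x = v W y ∧ Sim (v W x) (v W y) ∧ ¬ Sim (v W (x * z)) (v W (y * z)) := by
  let D := hyperfilter ℕ
  let p := Nat.nth Nat.Prime
  have key : v (tens D D) ((fun x : ℕ × ℕ => p x.1) : Germ _ _) =
      v (tens D D) ((fun x : ℕ × ℕ => p x.2) : Germ _ _) := by
    ext S
    show (∀ᶠ x in (tens D D : Filter (ℕ × ℕ)), p x.1 ∈ S) ↔
      ∀ᶠ x in (tens D D : Filter (ℕ × ℕ)), p x.2 ∈ S
    simp [ev_tens]
  refine ⟨ℕ × ℕ, tens D D, ((fun x : ℕ × ℕ => p x.1) : Germ _ _),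
    ((fun x : ℕ × ℕ => p x.2) : Germ _ _), ((fun x : ℕ × ℕ => p x.1) : Germ _ _), key,
    key ▸ ⟨Set.inter_subset_left, Set.inter_subset_left⟩, fun h => ?_⟩
  have hU : {n | ¬ Squarefree n} ∈ Up := by
    ext n
    exact ⟨fun ⟨a, ha, hd⟩ hn => ha (hn.squarefree_of_dvd hd), fun hn => ⟨n, hn, dvd_rfl⟩⟩
  have h0 : ∀ᶠ x in (tens D D : Filter (ℕ × ℕ)), ¬ Squarefree (p x.1 * p x.1) :=
    Eventually.of_forall fun x hx => (Nat.prime_nth_prime x.1).not_isUnit (hx (p x.1) dvd_rfl)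
  have h1 := h.1 ⟨h0, hU⟩
  have h2 : ∀ᶠ x in (tens D D : Filter (ℕ × ℕ)), x.1 < x.2 :=
    (ev_tens D D _).2 (Eventually.of_forall fun a =>
      Nat.hyperfilter_le_atTop (eventually_gt_atTop a))
  have h3 : ∀ᶠ x in (tens D D : Filter (ℕ × ℕ)), ¬ Squarefree (p x.2 * p x.1) := h1
  obtain ⟨x, h4, h5⟩ := (h2.and h3).exists
  refine h5 ((Nat.squarefree_mul ?_).2
    ⟨(Nat.prime_nth_prime _).squarefree, (Nat.prime_nth_prime _).squarefree⟩)
  rw [Nat.coprime_primes (Nat.prime_nth_prime _) (Nat.prime_nth_prime _)]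
  exact fun he => h4.ne' (Nat.nth_injective Nat.infinite_setOf_prime he)

end Pool.Agent.Results.MP_5ff22d_lc.Counter
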